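import Mathlib
import Pool.Agent.N172.HS.Defs

/-!
# Quadratic Hecke characters are ray class characters
-/

set_option autoImplicit false

open NumberField Complex Filter Topology

namespace Pool.Agent.N134.HS

open Pool.Agent.N172.HS

/-- one archimedean factor -/
noncomputable def gg (k : ℤ) (t : ℝ) (z : ℂ) : ℂ :=
  (z / (‖z‖ : ℂ)) ^ k * exp ((t * Real.log ‖z‖ : ℝ) * I)

lemma gg_one (k : ℤ) (t : ℝ) : gg k t 1 = 1 := by simp [gg]

lemma gg_mul (k : ℤ) (t : ℝ) {z w : ℂ} (hz : z ≠ 0) (hw : w ≠ 0) :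
    gg k t (z * w) = gg k t z * gg k t w := by
  have hz' : ‖z‖ ≠ 0 := norm_ne_zero_iff.2 hz
  have hw' : ‖w‖ ≠ 0 := norm_ne_zero_iff.2 hw
  unfold gg
  rw [norm_mul, Real.log_mul hz' hw', Complex.ofReal_mul, mul_div_mul_comm, mul_zpow, mul_add,
    Complex.ofReal_add, add_mul, Complex.exp_add]
  ring

lemma gg_cont (k : ℤ) (t : ℝ) {z : ℂ} (hz : z ≠ 0) : ContinuousAt (gg k t) z := by
  have hz' : ‖z‖ ≠ 0 := norm_ne_zero_iff.2 hz
  have h1 : ((‖z‖ : ℝ) : ℂ) ≠ 0 := by exact_mod_cast hz'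
  unfold gg
  have h2 : ContinuousAt (fun z : ℂ => z / ((‖z‖ : ℝ) : ℂ)) z := by
    refine ContinuousAt.div continuousAt_id ?_ h1
    fun_prop
  have h3 : ContinuousAt (fun z : ℂ => (z / ((‖z‖ : ℝ) : ℂ)) ^ k) z :=
    h2.zpow₀ k (Or.inl (div_ne_zero hz h1))
  have h4 : ContinuousAt (fun z : ℂ => Real.log ‖z‖) z :=
    continuous_norm.continuousAt.log hz'
  have h5 : ContinuousAt (fun z : ℂ => exp ((t * Real.log ‖z‖ : ℝ) * I)) z := by
    refine Complex.continuous_exp.continuousAt.comp ?_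
    refine ContinuousAt.mul ?_ continuousAt_const
    exact Complex.continuous_ofReal.continuousAt.comp (continuousAt_const.mul h4)
  exact h3.mul h5

lemma gg_ne_zero (k : ℤ) (t : ℝ) {z : ℂ} (hz : z ≠ 0) : gg k t z ≠ 0 := by
  have h1 : ((‖z‖ : ℝ) : ℂ) ≠ 0 := by exact_mod_cast norm_ne_zero_iff.2 hz
  exact mul_ne_zero (zpow_ne_zero _ (div_ne_zero hz h1)) (Complex.exp_ne_zero _)

section

variable {K : Type} [Field K] [NumberField K]

/-- the archimedean factors on families of complex numbers -/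
noncomputable def ga (k : (K →+* ℂ) → ℤ) (t : (K →+* ℂ) → ℝ) (z : (K →+* ℂ) → ℂ) : ℂ :=
  ∏ σ, gg (k σ) (t σ) (z σ)

lemma arch_eq (k : (K →+* ℂ) → ℤ) (t : (K →+* ℂ) → ℝ) (x : K) :
    arch k t x = ga k t (fun σ => σ x) := rfl

lemma ga_cont (k : (K →+* ℂ) → ℤ) (t : (K →+* ℂ) → ℝ) {z : (K →+* ℂ) → ℂ} (hz : ∀ σ, z σ ≠ 0) :
    ContinuousAt (ga k t) z := by
  unfold ga
  refine tendsto_finsetProd _ fun σ _ => ?_
  exact (gg_cont (k σ) (t σ) (hz σ)).tendsto.comp (continuous_apply σ).continuousAt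

lemma arch_mul (k : (K →+* ℂ) → ℤ) (t : (K →+* ℂ) → ℝ) {x y : K} (hx : x ≠ 0) (hy : y ≠ 0) :
    arch k t (x * y) = arch k t x * arch k t y := by
  rw [arch_eq, arch_eq, arch_eq]
  unfold ga
  rw [← Finset.prod_mul_distrib]
  refine Finset.prod_congr rfl fun σ _ => ?_
  change gg (k σ) (t σ) (σ (x * y)) = gg (k σ) (t σ) (σ x) * gg (k σ) (t σ) (σ y)
  rw [map_mul]
  exact gg_mul _ _ ((map_ne_zero σ).2 hx) ((map_ne_zero σ).2 hy)

lemma arch_ne_zero (k : (K →+* ℂ) → ℤ) (t : (K →+* ℂ) → ℝ) {x : K} (hx : x ≠ 0) :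
    arch k t x ≠ 0 := by
  rw [arch_eq]
  exact Finset.prod_ne_zero_iff.2 fun σ _ => gg_ne_zero _ _ ((map_ne_zero σ).2 hx)

lemma ga_one (k : (K →+* ℂ) → ℤ) (t : (K →+* ℂ) → ℝ) : ga k t (fun _ => 1) = 1 :=
  Finset.prod_eq_one fun σ _ => gg_one _ _

/-- convergence at all the embeddings -/
lemma arch_tendsto (k : (K →+* ℂ) → ℤ) (t : (K →+* ℂ) → ℝ) {x : ℕ → K} {y : K} (hy : y ≠ 0)
    (h : ∀ σ : K →+* ℂ, Tendsto (fun n => σ (x n)) atTop (𝓝 (σ y))) :
    Tendsto (fun n => arch k t (x n)) atTop (𝓝 (arch k t y)) := by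
  have h1 : Tendsto (fun n => (fun σ : K →+* ℂ => σ (x n))) atTop (𝓝 (fun σ => σ y)) :=
    tendsto_pi_nhds.2 h
  exact (ga_cont k t (z := fun σ => σ y) fun σ => (map_ne_zero σ).2 hy).tendsto.comp h1

variable {𝔣 : Ideal (𝓞 K)} {k : (K →+* ℂ) → ℤ} {t : (K →+* ℂ) → ℝ}

/-- a positive integer `m` in `𝔣` such that `m y` is in `𝔣` -/
lemma exists_mul_mem (h𝔣 : 𝔣 ≠ ⊥) (y : K) :
    ∃ m : ℕ, 0 < m ∧ (m : 𝓞 K) ∈ 𝔣 ∧ ∃ a : 𝓞 K, a ∈ 𝔣 ∧ (a : K) = m * y := by
  obtain ⟨a, b, hb, hab⟩ : ∃ (a : 𝓞 K) (b : ℕ), 0 < b ∧ (a : K) = b * y := by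
    obtain ⟨n, hn, hint⟩ := ((IsFractionRing.isAlgebraic_iff ℤ ℚ K).2
      (Algebra.IsAlgebraic.isAlgebraic y)).exists_integral_multiple
    have hint' : IsIntegral ℤ ((n.natAbs : K) * y) := by
      have h1 : (n : K) * y = n • y := (zsmul_eq_mul y n).symm
      rcases Int.natAbs_eq n with h2 | h2
      · have h3 : ((n.natAbs : K)) = (n : K) := by
          rw [← Int.cast_natCast, ← h2]
        rw [h3, h1]
        exact hint
      · have h3 : ((n.natAbs : K)) = -(n : K) := by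
          rw [← Int.cast_natCast, ← Int.cast_neg]
          congr 1
          omega
        rw [h3, neg_mul, h1]
        exact hint.neg
    exact ⟨⟨_, hint'⟩, n.natAbs, Int.natAbs_pos.2 hn, rfl⟩
  refine ⟨Ideal.absNorm 𝔣 * b, ?_, ?_, (Ideal.absNorm 𝔣 : 𝓞 K) * a, ?_, ?_⟩
  · refine Nat.mul_pos (Nat.pos_of_ne_zero fun h => h𝔣 (Ideal.absNorm_eq_zero_iff.mp h)) hb
  · push_cast
    exact Ideal.mul_mem_right _ _ (Ideal.absNorm_mem 𝔣)
  · exact Ideal.mul_mem_right _ _ (Ideal.absNorm_mem 𝔣)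
  · have hab' : algebraMap (𝓞 K) K a = b * y := hab
    change algebraMap (𝓞 K) K ((Ideal.absNorm 𝔣 : 𝓞 K) * a) = _
    rw [map_mul, map_natCast, hab']
    push_cast
    ring

/-- the square of the archimedean factor is trivial -/
lemma arch_sq (h𝔣 : 𝔣 ≠ ⊥)
    (h : ∀ x : 𝓞 K, x ≠ 0 → x - 1 ∈ 𝔣 → TotPos x → arch k t (x : K) ^ 2 = 1)
    {y : K} (hy : y ≠ 0) (hpos : ∀ σ : K →+* ℝ, 0 < σ y) : arch k t y ^ 2 = 1 := by
  obtain ⟨m, hm, hmf, a, haf, ha⟩ := exists_mul_mem h𝔣 y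
  have hm' : (m : K) ≠ 0 := by exact_mod_cast hm.ne'
  -- the elements `1 + j c`
  have key : ∀ c : 𝓞 K, c ∈ 𝔣 → c ≠ 0 → (∀ σ : K →+* ℝ, 0 < σ (c : K)) → ∀ᶠ j : ℕ in atTop,
      arch k t ((j : K) * c) ^ 2 * arch k t (1 + ((j : K) * c)⁻¹) ^ 2 = 1 := by
    intro c hc hc0 hcp
    have hcK : (c : K) ≠ 0 := by exact_mod_cast hc0
    -- nonzero
    have h0 : ∀ᶠ j : ℕ in atTop, (1 + (j : 𝓞 K) * c) ≠ 0 := by
      have hinj : Function.Injective fun j : ℕ => (1 + (j : 𝓞 K) * c) := by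
        intro i j hij
        have h1 : (i : 𝓞 K) * c = j * c := add_left_cancel hij
        have h2 := mul_right_cancel₀ hc0 h1
        exact_mod_cast h2
      have := hinj.tendsto_cofinite.eventually
        ((Set.finite_singleton (0 : 𝓞 K)).compl_mem_cofinite)
      rw [Nat.cofinite_eq_atTop] at this
      filter_upwards [this] with j hj
      simpa using hj
    filter_upwards [h0, eventually_gt_atTop 0] with j hj hj0
    have hjK : (j : K) ≠ 0 := by exact_mod_cast hj0.ne'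
    have hjc : (j : K) * c ≠ 0 := mul_ne_zero hjK hcK
    have h1 := h (1 + (j : 𝓞 K) * c) hj (by
      rw [add_sub_cancel_left]
      exact Ideal.mul_mem_left _ _ hc) (by
      intro σ
      have h2 := hcp σ
      have h3 : σ (((1 + (j : 𝓞 K) * c : 𝓞 K)) : K) = 1 + j * σ (c : K) := by
        push_cast
        rw [map_add, map_one, map_mul, map_natCast]
      rw [h3]
      positivity)
    have h2 : (((1 + (j : 𝓞 K) * c : 𝓞 K)) : K) = ((j : K) * c) * (1 + ((j : K) * c)⁻¹) := by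
      push_cast
      field_simp
      ring
    have h3 : (1 + ((j : K) * c)⁻¹) ≠ 0 := by
      intro h4
      rw [h4, mul_zero] at h2
      apply hj
      exact_mod_cast h2
    rw [h2, arch_mul k t hjc h3, mul_pow] at h1
    exact h1
  have hlim : ∀ c : 𝓞 K, c ≠ 0 → Tendsto (fun j : ℕ => arch k t (1 + ((j : K) * c)⁻¹) ^ 2) atTop
      (𝓝 1) := by
    intro c hc0
    have h1 := (arch_tendsto k t (x := fun j : ℕ => 1 + ((j : K) * c)⁻¹) (y := 1) one_ne_zero
      fun σ => ?_).pow 2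
    · have h2 : arch k t (1 : K) = 1 := by
        rw [arch_eq]
        simp only [map_one]
        exact ga_one k t
      rw [h2, one_pow] at h1
      exact h1
    · have h2 : ∀ j : ℕ, σ (1 + ((j : K) * c)⁻¹) = 1 + ((j : ℂ))⁻¹ * (σ (c : K))⁻¹ := by
        intro j
        rw [map_add, map_one, map_inv₀, map_mul, map_natCast, mul_inv]
      simp only [h2, map_one]
      have h3 : Tendsto (fun j : ℕ => ((j : ℂ))⁻¹) atTop (𝓝 0) :=
        tendsto_inv_atTop_nhds_zero_nat (𝕜 := ℂ)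
      have h4 := (h3.mul_const (σ (c : K))⁻¹).const_add 1
      simpa using h4
  have hmO : (m : 𝓞 K) ≠ 0 := by exact_mod_cast hm.ne'
  have ha0 : a ≠ 0 := by
    intro h0
    rw [h0] at ha
    have : (m : K) * y = 0 := by rw [← ha]; simp
    exact (mul_ne_zero hm' hy) this
  have k1 := key (m : 𝓞 K) hmf hmO (fun σ => by
    have : σ (((m : 𝓞 K)) : K) = m := by push_cast; rw [map_natCast]
    rw [this]
    exact_mod_cast hm)
  have k2 := key a haf ha0 (fun σ => by
    rw [ha, map_mul, map_natCast]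
    exact mul_pos (by exact_mod_cast hm) (hpos σ))
  have l1 := hlim (m : 𝓞 K) hmO
  have l2 := hlim a ha0
  -- the quotient
  have h3 : ∀ᶠ j : ℕ in atTop, arch k t (1 + ((j : K) * ((m : 𝓞 K) : K))⁻¹) ^ 2 =
      arch k t y ^ 2 * arch k t (1 + ((j : K) * a)⁻¹) ^ 2 := by
    filter_upwards [k1, k2, eventually_gt_atTop 0] with j h1 h2 hj0
    have hjK : (j : K) ≠ 0 := by exact_mod_cast hj0.ne'
    have hjm : (j : K) * ((m : 𝓞 K) : K) ≠ 0 := by
      push_cast
      exact mul_ne_zero hjK hm'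
    have h4 : (j : K) * (a : K) = ((j : K) * ((m : 𝓞 K) : K)) * y := by
      rw [ha]
      push_cast
      ring
    have h5 : arch k t ((j : K) * (a : K)) = arch k t ((j : K) * ((m : 𝓞 K) : K)) * arch k t y := by
      rw [h4, arch_mul k t hjm hy]
    rw [h5, mul_pow, mul_assoc] at h2
    have h6 : arch k t ((j : K) * ((m : 𝓞 K) : K)) ^ 2 ≠ 0 := pow_ne_zero _ (arch_ne_zero k t hjm)
    exact mul_left_cancel₀ h6 (h1.trans h2.symm)
  have h4 : Tendsto (fun j : ℕ => arch k t y ^ 2 * arch k t (1 + ((j : K) * a)⁻¹) ^ 2) atTop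
      (𝓝 (arch k t y ^ 2 * 1)) := l2.const_mul _
  have h5 := l1.congr' h3
  have h6 := tendsto_nhds_unique h5 h4
  rw [mul_one] at h6
  exact h6.symm

/-- the archimedean factor is trivial on the elements with no image on the negative real axis -/
lemma arch_slit (h𝔣 : 𝔣 ≠ ⊥)
    (h : ∀ x : 𝓞 K, x ≠ 0 → x - 1 ∈ 𝔣 → TotPos x → arch k t (x : K) ^ 2 = 1)
    {y : K} (hy : ∀ σ : K →+* ℂ, σ y ∈ slitPlane) : arch k t y = 1 := by
  classical
  set F : ℝ → ℂ := fun τ => ga k t (fun σ => ((1 - τ : ℝ) : ℂ) * σ y + (τ : ℝ)) with hF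
  have hslit : ∀ τ ∈ Set.Icc (0 : ℝ) 1, ∀ σ : K →+* ℂ,
      ((1 - τ : ℝ) : ℂ) * σ y + (τ : ℝ) ∈ slitPlane := by
    intro τ hτ σ
    have h1 := Complex.starConvex_one_slitPlane (hy σ) (a := τ) (b := 1 - τ) hτ.1
      (by linarith [hτ.2]) (by ring)
    have h2 : τ • (1 : ℂ) + (1 - τ) • σ y = ((1 - τ : ℝ) : ℂ) * σ y + (τ : ℝ) := by
      rw [Complex.real_smul, Complex.real_smul, mul_one, add_comm]
    rw [← h2]
    exact h1
  have hcont : ContinuousOn F (Set.Icc 0 1) := by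
    intro τ hτ
    refine ContinuousAt.continuousWithinAt ?_
    have h1 : ContinuousAt (fun τ : ℝ => fun σ : K →+* ℂ => ((1 - τ : ℝ) : ℂ) * σ y + (τ : ℝ)) τ := by
      fun_prop
    have h2 := ga_cont k t (z := fun σ => ((1 - τ : ℝ) : ℂ) * σ y + (τ : ℝ))
      fun σ => slitPlane_ne_zero (hslit τ hτ σ)
    exact ContinuousAt.comp (g := ga k t)
      (f := fun τ : ℝ => fun σ : K →+* ℂ => ((1 - τ : ℝ) : ℂ) * σ y + (τ : ℝ)) h2 h1
  -- rational points
  have hrat : ∀ q : ℚ, ((q : ℝ)) ∈ Set.Icc (0 : ℝ) 1 → F q ^ 2 = 1 := by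
    intro q hq
    have h1 : F q = arch k t ((1 - (q : K)) * y + q) := by
      rw [arch_eq, hF]
      simp only
      congr 1
      funext σ
      rw [map_add, map_mul, map_sub, map_one, map_ratCast]
      push_cast
      rfl
    rw [h1]
    have h2 : ∀ σ : K →+* ℂ, σ ((1 - (q : K)) * y + q) ∈ slitPlane := by
      intro σ
      have h3 := hslit q hq σ
      have h4 : σ ((1 - (q : K)) * y + q) = ((1 - (q : ℝ) : ℝ) : ℂ) * σ y + ((q : ℝ) : ℂ) := by
        rw [map_add, map_mul, map_sub, map_one, map_ratCast]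
        push_cast
        rfl
      rw [h4]
      exact h3
    have hne : ((1 - (q : K)) * y + q) ≠ 0 := by
      intro h0
      obtain ⟨σ⟩ : Nonempty (K →+* ℂ) := inferInstance
      have := slitPlane_ne_zero (h2 σ)
      rw [h0, map_zero] at this
      exact this rfl
    refine arch_sq h𝔣 h hne fun τ => ?_
    have h3 := h2 (Complex.ofRealHom.comp τ)
    have h4 : (Complex.ofRealHom.comp τ) ((1 - (q : K)) * y + q) =
        ((τ ((1 - (q : K)) * y + q) : ℝ) : ℂ) := rfl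
    rw [h4, Complex.ofReal_mem_slitPlane] at h3
    exact h3
  have hall : ∀ τ ∈ Set.Icc (0 : ℝ) 1, F τ ^ 2 = 1 := by
    intro τ hτ
    set q : ℕ → ℚ := fun n => (⌊τ * n⌋₊ : ℚ) / n with hq
    have hq1 : ∀ n, ((q n : ℚ) : ℝ) ∈ Set.Icc (0 : ℝ) 1 := by
      intro n
      rw [hq]
      simp only
      push_cast
      refine ⟨by positivity, ?_⟩
      refine div_le_one_of_le₀ ?_ (Nat.cast_nonneg n)
      refine (Nat.floor_le (mul_nonneg hτ.1 (Nat.cast_nonneg n))).trans ?_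
      have := mul_le_mul_of_nonneg_right hτ.2 (Nat.cast_nonneg (α := ℝ) n)
      linarith
    have hq2 : Tendsto (fun n => ((q n : ℚ) : ℝ)) atTop (𝓝 τ) := by
      have h1 := (tendsto_nat_floor_mul_div_atTop hτ.1).comp tendsto_natCast_atTop_atTop
      refine h1.congr fun n => ?_
      rw [hq]
      simp only [Function.comp_apply]
      push_cast
      rfl
    have h1 : Tendsto (fun n => F ((q n : ℚ) : ℝ)) atTop (𝓝 (F τ)) :=
      (hcont τ hτ).tendsto.comp (tendsto_nhdsWithin_iff.2 ⟨hq2, Eventually.of_forall hq1⟩)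
    have h2 := h1.pow 2
    simp only [fun n => hrat (q n) (hq1 n)] at h2
    exact (tendsto_nhds_unique h2 tendsto_const_nhds)
  have hpre : IsPreconnected (Set.Icc (0 : ℝ) 1) := isPreconnected_Icc
  have h1 := hpre.eq_or_eq_neg_of_sq_eq hcont (continuousOn_const (c := (1 : ℂ)))
    (fun τ hτ => by simpa using hall τ hτ) (fun _ => one_ne_zero)
  have hF1 : F 1 = 1 := by
    rw [hF]
    simp only [sub_self, ofReal_zero, zero_mul, zero_add, ofReal_one]
    exact ga_one k t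
  have hF0 : F 0 = arch k t y := by
    rw [arch_eq, hF]
    simp only [sub_zero, ofReal_one, one_mul, ofReal_zero, add_zero]
  rw [← hF0]
  rcases h1 with h1 | h1
  · exact h1 (Set.left_mem_Icc.2 zero_le_one)
  · have h2 : F 1 = -1 := h1 (Set.right_mem_Icc.2 zero_le_one)
    rw [hF1] at h2
    norm_num at h2

/-- an element whose images under the non-real embeddings are not real -/
lemma exists_nonreal (K : Type) [Field K] [NumberField K] :
    ∃ x : K, ∀ σ : K →+* ℂ, (σ x).im = 0 → ∀ y : K, (σ y).im = 0 := by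
  obtain ⟨x, hx⟩ := Field.exists_primitive_element ℚ K
  refine ⟨x, fun σ h y => ?_⟩
  have h1 : ∀ z : K, z ∈ IntermediateField.adjoin ℚ {x} → (σ z).im = 0 := by
    intro z hz
    induction hz using IntermediateField.adjoin_induction with
    | mem z hz => rw [Set.mem_singleton_iff.1 hz]; exact h
    | algebraMap q => simp
    | add a b _ _ ha hb => rw [map_add, add_im, ha, hb, add_zero]
    | inv a _ ha => rw [map_inv₀, inv_im, ha]; simp
    | mul a b _ _ ha hb => rw [map_mul, mul_im, ha, hb]; simp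
  exact h1 y (by rw [hx]; trivial)

/-- **the archimedean factor is trivial on the totally positive elements** -/
theorem arch_eq_one (h𝔣 : 𝔣 ≠ ⊥)
    (h : ∀ x : 𝓞 K, x ≠ 0 → x - 1 ∈ 𝔣 → TotPos x → arch k t (x : K) ^ 2 = 1)
    {y : K} (hy : y ≠ 0) (hpos : ∀ σ : K →+* ℝ, 0 < σ y) : arch k t y = 1 := by
  obtain ⟨g, hg⟩ := exists_nonreal K
  have hinv : Tendsto (fun n : ℕ => ((n : ℂ))⁻¹) atTop (𝓝 0) :=
    tendsto_inv_atTop_nhds_zero_nat (𝕜 := ℂ)
  have hev : ∀ σ : K →+* ℂ, ∀ n : ℕ, σ (y * (1 + (n : K)⁻¹ * g)) =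
      σ y * (1 + (n : ℂ)⁻¹ * σ g) := by
    intro σ n
    rw [map_mul, map_add, map_one, map_mul, map_inv₀, map_natCast]
  have hlim : ∀ σ : K →+* ℂ, Tendsto (fun n : ℕ => σ (y * (1 + (n : K)⁻¹ * g))) atTop
      (𝓝 (σ y)) := by
    intro σ
    simp only [hev]
    have h4 := ((hinv.mul_const (σ g)).const_add 1).const_mul (σ y)
    simpa using h4
  have hy' : ∀ σ : K →+* ℂ, ∀ᶠ n : ℕ in atTop, σ (y * (1 + (n : K)⁻¹ * g)) ∈ slitPlane := by
    intro σ
    by_cases h1 : σ y ∈ slitPlane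
    · exact (hlim σ).eventually (isOpen_slitPlane.mem_nhds h1)
    · have him : (σ y).im = 0 := by
        by_contra h2
        exact h1 (Or.inr h2)
      -- `σ` is not real
      have hσ : ∃ z : K, (σ z).im ≠ 0 := by
        by_contra h2
        push Not at h2
        let τ : K →+* ℝ :=
          { toFun := fun z => (σ z).re
            map_one' := by simp
            map_mul' := fun a b => by rw [map_mul, mul_re, h2 a, zero_mul, sub_zero]
            map_zero' := by simp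
            map_add' := fun a b => by rw [map_add, add_re] }
        have h3 : 0 < (σ y).re := hpos τ
        exact h1 (Or.inl h3)
      have hgim : (σ g).im ≠ 0 := by
        intro h2
        obtain ⟨z, hz⟩ := hσ
        exact hz (hg σ h2 z)
      have hyre : (σ y).re ≠ 0 := by
        intro h2
        exact (map_ne_zero σ).2 hy (Complex.ext h2 him)
      filter_upwards [eventually_gt_atTop 0] with n hn
      right
      rw [hev, mul_im, him, zero_mul, add_zero]
      refine mul_ne_zero hyre ?_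
      have h5 : ((n : ℂ)⁻¹) = (((n : ℝ)⁻¹ : ℝ) : ℂ) := by push_cast; rfl
      rw [h5, add_im, one_im, zero_add, Complex.im_ofReal_mul]
      have : (n : ℝ) ≠ 0 := by exact_mod_cast hn.ne'
      exact mul_ne_zero (inv_ne_zero this) hgim
  have hall : ∀ᶠ n : ℕ in atTop, ∀ σ : K →+* ℂ, σ (y * (1 + (n : K)⁻¹ * g)) ∈ slitPlane :=
    eventually_all.2 hy'
  have h1 := arch_tendsto k t (x := fun n : ℕ => y * (1 + (n : K)⁻¹ * g)) hy hlim
  have h2 : Tendsto (fun n : ℕ => arch k t (y * (1 + (n : K)⁻¹ * g))) atTop (𝓝 1) := by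
    refine tendsto_const_nhds.congr' ?_
    filter_upwards [hall] with n hn
    exact (arch_slit h𝔣 h hn).symm
  exact tendsto_nhds_unique h1 h2

end

end Pool.Agent.N134.HS
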