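import Mathlib
import Pool.Agent.N134.HS.Arch
import Pool.Agent.Y772.HG.Tot
import Pool.Agent.Y773.HG.Rs

/-!
# Quadratic Hecke characters: non-vanishing at `s = 1`
-/

set_option autoImplicit false

open NumberField Complex Filter Topology

namespace Pool.Agent.N134.HS

open Pool.Agent.N172.HS
open Pool.Agent.Y773 (LI TPos rmv rmv_of_dvd rmv_of_not_dvd coprime_prime_iff)

section

variable {K : Type} [Field K] [NumberField K]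

/-- a prime removed -/
lemma exists_mod {𝔪 : Ideal (𝓞 K)} {η : Ideal (𝓞 K) →*₀ ℂ} (hne : 𝔪 ≠ ⊥)
    (hsupp : ∀ 𝔞 : Ideal (𝓞 K), 𝔞 ≠ ⊥ → (η 𝔞 ≠ 0 ↔ IsCoprime 𝔞 𝔪))
    (hray : ∀ x : 𝓞 K, x ≠ 0 → x - 1 ∈ 𝔪 → TPos K x → η (Ideal.span {x}) = 1)
    {𝔭 : Ideal (𝓞 K)} (h𝔭 : Prime 𝔭) :
    ∃ e : InfinitePlace K → ℕ, Pool.Agent.Y773.G.IsModChar (𝔪 * 𝔭) e (rmv 𝔭 h𝔭 η) := by
  classical
  have h𝔭0 : 𝔭 ≠ ⊥ := h𝔭.ne_zero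
  have h𝔭top : 𝔭 ≠ ⊤ := (Ideal.isPrime_of_prime h𝔭).ne_top
  have hne' : 𝔪 * 𝔭 ≠ ⊥ := mul_ne_zero hne h𝔭0
  have htop' : 𝔪 * 𝔭 ≠ ⊤ := by
    intro h
    have h1 : 𝔪 * 𝔭 ≤ 𝔭 := Ideal.mul_le_right
    rw [h] at h1
    exact h𝔭top (top_le_iff.mp h1)
  refine Pool.Agent.Y772.G.exists_sig hne' htop' ?_ ?_
  · intro 𝔟 h0
    rw [IsCoprime.mul_right_iff, coprime_prime_iff h𝔭]
    constructor
    · intro h1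
      have h2 : ¬ 𝔭 ∣ 𝔟 := by
        intro h3
        exact h1 (rmv_of_dvd h𝔭 η h3)
      rw [rmv_of_not_dvd h𝔭 η h2] at h1
      exact ⟨(hsupp 𝔟 h0).mp h1, h2⟩
    · rintro ⟨h1, h2⟩
      rw [rmv_of_not_dvd h𝔭 η h2]
      exact (hsupp 𝔟 h0).mpr h1
  · intro x hx0 hx hpos
    have h1 : ¬ 𝔭 ∣ Ideal.span {x} := by
      intro h2
      rw [Ideal.dvd_span_singleton] at h2
      have h3 : x - 1 ∈ 𝔭 := (Ideal.mul_le_right : 𝔪 * 𝔭 ≤ 𝔭) hx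
      have h4 : (1 : 𝓞 K) ∈ 𝔭 := by
        have : (1 : 𝓞 K) = x - (x - 1) := by ring
        rw [this]
        exact 𝔭.sub_mem h2 h3
      exact h𝔭top ((Ideal.eq_top_iff_one _).mpr h4)
    rw [rmv_of_not_dvd h𝔭 η h1]
    exact hray x hx0 (Ideal.mul_le_left (I := 𝔪) (J := 𝔭) hx) hpos

/-- **Non-vanishing at `s = 1`** of the L-functions of nontrivial ray class characters -/
theorem ray_ne_zero {𝔪 : Ideal (𝓞 K)} {η : Ideal (𝓞 K) →*₀ ℂ} (hne : 𝔪 ≠ ⊥)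
    (hsupp : ∀ 𝔞 : Ideal (𝓞 K), 𝔞 ≠ ⊥ → (η 𝔞 ≠ 0 ↔ IsCoprime 𝔞 𝔪))
    (hray : ∀ x : 𝓞 K, x ≠ 0 → x - 1 ∈ 𝔪 → TPos K x → η (Ideal.span {x}) = 1)
    (hle : ∀ 𝔞, ‖η 𝔞‖ ≤ 1)
    (hn : ∃ 𝔞 : Ideal (𝓞 K), 𝔞 ≠ ⊥ ∧ IsCoprime 𝔞 𝔪 ∧ η 𝔞 ≠ 1) :
    ∃ G : ℂ → ℂ, AnalyticAt ℂ G 1 ∧ G 1 ≠ 0 ∧ ∀ s : ℂ, 1 < s.re → G s = LI η s := by
  obtain ⟨𝔭, h𝔭, -⟩ := Pool.Agent.Y773.G.exists_prime_not_dvd (K := K) (𝔞 := ⊤) (by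
    intro h
    exact (top_ne_bot h))
  obtain ⟨e, he⟩ := exists_mod hne hsupp hray h𝔭
  obtain ⟨g, hg, hgs⟩ := Pool.Agent.Y773.G.LI_cont Pool.Agent.Y772.G.t_sig hne hsupp hray hn
  refine ⟨g, hg, ?_, fun s hs => (hgs s hs).symm⟩
  have hN0 : ((Ideal.absNorm 𝔭 : ℕ) : ℂ) ≠ 0 := by
    have h1 : Ideal.absNorm 𝔭 ≠ 0 := fun h => h𝔭.ne_zero (Ideal.absNorm_eq_zero_iff.mp h)
    exact_mod_cast h1
  have hF : AnalyticAt ℂ (fun s : ℂ => g s * (1 - η 𝔭 * ((Ideal.absNorm 𝔭 : ℕ) : ℂ) ^ (-s))) 1 := by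
    refine hg.mul ?_
    have h1 : Differentiable ℂ fun s : ℂ => 1 - η 𝔭 * ((Ideal.absNorm 𝔭 : ℕ) : ℂ) ^ (-s) := by
      intro s
      exact (differentiableAt_const _).sub ((differentiableAt_const _).mul
        ((differentiableAt_id.neg).const_cpow (Or.inl hN0)))
    exact h1.analyticAt 1
  have h1 := Pool.Agent.Y772.G.nv_tot Pool.Agent.Y773.G.t_ent he (s₀ := 1) (by simp) hF
    (Eventually.of_forall fun s hs => by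
      rw [← hgs s hs, Pool.Agent.Y773.G.LI_rmv h𝔭 hle hs])
  intro h2
  apply h1
  rw [h2, zero_mul]

end

/-- **NVQ** -/
theorem t_nvq : StNvq := by
  intro K _ _ 𝔣 k t ψ h hsq hneg
  have harch : ∀ x : 𝓞 K, x ≠ 0 → x - 1 ∈ 𝔣 → TotPos x → arch k t (x : K) ^ 2 = 1 := by
    intro x hx0 hx1 hxp
    have h1 := h.ray x hx0 hx1 hxp
    have hx0' : (x : K) ≠ 0 := by exact_mod_cast hx0
    rw [← h1]
    refine hsq _ ?_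
    rw [h1]
    exact arch_ne_zero k t hx0'
  have hray : ∀ x : 𝓞 K, x ≠ 0 → x - 1 ∈ 𝔣 → TPos K x → ψ (Ideal.span {x}) = 1 := by
    intro x hx0 hx1 hxp
    have hx0' : (x : K) ≠ 0 := by exact_mod_cast hx0
    rw [h.ray x hx0 hx1 hxp]
    exact arch_eq_one h.ne_bot harch hx0' hxp
  obtain ⟨𝔞, h𝔞⟩ := hneg
  have h𝔞0 : 𝔞 ≠ ⊥ := by
    rintro rfl
    have h1 : ψ (⊥ : Ideal (𝓞 K)) = 0 := map_zero ψ
    rw [h1] at h𝔞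
    norm_num at h𝔞
  have h𝔞c : IsCoprime 𝔞 𝔣 := (h.supp 𝔞 h𝔞0).1 (by rw [h𝔞]; norm_num)
  have hle : ∀ 𝔟, ‖ψ 𝔟‖ ≤ 1 := by
    intro 𝔟
    by_cases h0 : ψ 𝔟 = 0
    · rw [h0, norm_zero]
      exact zero_le_one
    · exact (h.unit 𝔟 h0).le
  exact ray_ne_zero h.ne_bot h.supp hray hle ⟨𝔞, h𝔞0, h𝔞c, by rw [h𝔞]; norm_num⟩

end Pool.Agent.N134.HS
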